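import Pool.Agent.Helper446.CB.Main

/-!
# Minimality is definable in the lattice of `Π⁰₁` classes

`EPi` is the lattice of all `Π⁰₁` classes `P ⊆ 2^ω` ordered by inclusion. A `Π⁰₁` class `P` is
minimal if it is infinite and for every `Π⁰₁` class `Q ⊆ P` one of `Q` and `P \ Q` is finite. The
family of the minimal classes is definable in `EPi` by a first-order formula in the language `{≤}`
without parameters.

The starting library (`Pool.Agent.Helper446.CB`) shows that the families `{P | D^n(P) = ∅}` are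
definable; for `n = 1` this is the family of the finite classes. If `P \ Q` is finite, then it is
itself a `Π⁰₁` class, as it is the intersection of `P` with a clopen set; so `P \ Q` is finite if
and only if `P` is below the join of `Q` and some finite class.
-/

set_option autoImplicit false

namespace Pool.Agent.Results.MP_aad418_lc.MinimalDefinable

open Pool.Agent.Helper446.Defs Pool.Agent.Helper446.CB

/-- `P` is minimal: it is infinite, and for every `Π⁰₁` class `Q ⊆ P`, either `Q` is finite or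
`P \ Q` is finite. -/
def IsMinimal (P : EPi) : Prop :=
  P.1.Infinite ∧ ∀ Q : EPi, Q.1 ⊆ P.1 → Q.1.Finite ∨ (P.1 \ Q.1).Finite

theorem deriv_eq_empty_iff {P : Set (ℕ → Bool)} (hP : IsClosed P) :
    deriv P = ∅ ↔ P.Finite := by
  constructor
  · intro h
    have h1 : ∀ x ∈ P, ∃ U : Set (ℕ → Bool), IsOpen U ∧ U ∩ P = {x} := by
      intro x hx
      by_contra hcon
      push Not at hcon
      have : x ∈ deriv P := ⟨hx, hcon⟩
      rw [h] at this
      exact this
    choose! U hU hUP using h1
    have hc : IsCompact P := hP.isCompact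
    obtain ⟨t, ht⟩ := hc.elim_finite_subcover (fun x : P => U x) (fun x => hU x.1 x.2)
      (fun x hx => Set.mem_iUnion.2 ⟨⟨x, hx⟩, by
        have : x ∈ U x ∩ P := by rw [hUP x hx]; rfl
        exact this.1⟩)
    have h2 : P ⊆ (fun x : P => x.1) '' (t : Set P) := by
      intro x hx
      obtain ⟨y, hy⟩ := Set.mem_iUnion.1 (ht hx)
      obtain ⟨hyt, hy2⟩ := Set.mem_iUnion.1 hy
      have h3 : x ∈ U y.1 ∩ P := ⟨hy2, hx⟩
      rw [hUP y.1 y.2] at h3
      exact ⟨y, hyt, h3.symm⟩
    exact (t.finite_toSet.image _).subset h2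
  · intro h
    rw [Set.eq_empty_iff_forall_notMem]
    rintro x ⟨hx, hx2⟩
    refine hx2 (P \ {x})ᶜ (h.subset Set.sdiff_subset).isClosed.isOpen_compl ?_
    ext y
    simp only [Set.mem_inter_iff, Set.mem_compl_iff, Set.mem_sdiff, Set.mem_singleton_iff, not_and,
      not_not]
    constructor
    · rintro ⟨h1, h2⟩
      exact h1 h2
    · rintro rfl
      exact ⟨fun _ => rfl, hx⟩

/-- Finiteness is definable; this is the case `n = 1` of a theorem of the library. -/
theorem defFinite : Def1 fun P => P.1.Finite := by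
  intro Γ i
  refine (def_null 1 i).of_iff fun v => ?_
  have h : cb (v i).1 ((0 + 1 : ℕ) : Ordinal.{0}) = deriv (v i).1 := by
    rw [cb_nat_succ, Nat.cast_zero, cb_zero]
  show cb (v i).1 ((0 + 1 : ℕ) : Ordinal.{0}) = ∅ ↔ (v i).1.Finite
  rw [h]
  exact deriv_eq_empty_iff (IsPi01.isClosed (v i).2)

/-- If `P \ Q` is finite then it is a `Π⁰₁` class. -/
theorem diff_pi {P Q : Set (ℕ → Bool)} (hP : IsPi01 P) (hQ : IsPi01 Q) (h : (P \ Q).Finite) :
    IsPi01 (P \ Q) := by
  have hQc : IsClosed Q := IsPi01.isClosed hQ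
  have h1 : ∀ x ∈ P \ Q, ∃ n, cyl (seg x n) ⊆ Qᶜ := fun x hx =>
    isOpen_iff.1 hQc.isOpen_compl x hx.2
  choose! n hn using h1
  have hC : IsClopen (⋃ x ∈ P \ Q, cyl (seg x (n x))) := h.isClopen_biUnion fun x _ =>
    isClopen_cyl _
  have h2 : P \ Q = P ∩ ⋃ x ∈ P \ Q, cyl (seg x (n x)) := by
    ext y
    simp only [Set.mem_inter_iff, Set.mem_iUnion]
    constructor
    · intro hy
      exact ⟨hy.1, y, hy, self_mem_cyl _ _⟩
    · rintro ⟨hy, x, hx, hxy⟩
      exact ⟨hy, hn x hx hxy⟩
  rw [h2]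
  exact IsPi01.inter hP (IsPi01.of_clopen hC)

/-- The relation `P \ Q is finite` is definable. -/
theorem defDiffFinite : Def2 fun P Q => (P.1 \ Q.1).Finite := by
  intro Γ i j
  refine (DefP.ex (R := fun v (x : EPi) => x.1.Finite ∧ ∀ y : EPi, v j ≤ y → x ≤ y → v i ≤ y)
    ?_).of_iff fun v => ?_
  · refine (defFinite _).and (DefP.all (R := fun (v : Γ ⊕ Unit → EPi) (y : EPi) =>
      v (Sum.inl j) ≤ y → v (Sum.inr ()) ≤ y → v (Sum.inl i) ≤ y) ?_)
    exact (DefP.le _ _).imp ((DefP.le _ _).imp (DefP.le _ _))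
  · constructor
    · rintro ⟨x, hx, h⟩
      have h1 : (v i).1 ⊆ (v j).1 ∪ x.1 := h ⟨(v j).1 ∪ x.1, IsPi01.union (v j).2 x.2⟩
        Set.subset_union_left Set.subset_union_right
      exact hx.subset fun y hy => (h1 hy.1).resolve_left hy.2
    · intro h
      refine ⟨⟨(v i).1 \ (v j).1, diff_pi (v i).2 (v j).2 h⟩, h, fun y h1 h2 z hz => ?_⟩
      by_cases hzj : z ∈ (v j).1
      · exact h1 hzj
      · exact h2 ⟨hz, hzj⟩

theorem defMinimal : Def1 IsMinimal := by
  intro Γ i
  refine (defFinite i).not.and (DefP.all (R := fun v (Q : EPi) => Q ≤ v i →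
    Q.1.Finite ∨ ((v i).1 \ Q.1).Finite) ?_)
  exact (DefP.le _ _).imp ((defFinite _).or (defDiffFinite _ _))

/-- **Minimality is definable** in the lattice of `Π⁰₁` classes: there is a first-order formula
`φ(x)` in the language `{≤}`, without parameters, such that a `Π⁰₁` class `P` is minimal if and
only if `φ(P)` holds in the lattice of all `Π⁰₁` classes. -/
theorem result : ∃ φ : FirstOrder.Language.order.Formula (Fin 1),
    ∀ P : EPi, φ.Realize (fun _ => P) ↔ IsMinimal P := by
  obtain ⟨φ, hφ⟩ := defMinimal (Γ := Fin 1) 0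
  exact ⟨φ, fun P => hφ fun _ => P⟩

end Pool.Agent.Results.MP_aad418_lc.MinimalDefinable
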